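import Pool.Agent.H547.CW.Stm

set_option autoImplicit false

namespace Pool.Agent.H103.CW64.A9

open Polynomial Finset

section gen
variable {K : Type*} [Field K]

/-- the differential operator -/
noncomputable def L (P : K[X]) : K[X] := derivative ((X - X ^ 5) * derivative P) - 4 * X ^ 3 * P

lemma L_add (P Q : K[X]) : L (P + Q) = L P + L Q := by
  simp only [L, derivative_add, mul_add]; ring

lemma L_C_mul (c : K) (P : K[X]) : L (C c * P) = C c * L P := by
  simp only [L, derivative_C_mul]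
  have : (X - X ^ 5) * (C c * derivative P) = C c * ((X - X ^ 5) * derivative P) := by ring
  rw [this, derivative_C_mul]; ring

lemma L_zero : L (0 : K[X]) = 0 := by simp [L]

lemma L_sum (n : ℕ) (g : ℕ → K[X]) : L (∑ j ∈ range n, g j) = ∑ j ∈ range n, L (g j) := by
  induction n with
  | zero => simp [L_zero]
  | succ n ih => rw [sum_range_succ, sum_range_succ, L_add, ih]

lemma X_sub_mul_deriv (k : ℕ) :
    (X - X ^ 5 : K[X]) * derivative (X ^ k) = C (k : K) * (X ^ k - X ^ (k + 4)) := by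
  rcases k with _ | k
  · simp
  · rw [derivative_X_pow]
    simp only [Nat.add_sub_cancel]
    ring

lemma L_X_pow (k : ℕ) :
    L (X ^ k : K[X]) = C ((k : K) ^ 2) * X ^ (k - 1) - C (((k : K) + 2) ^ 2) * X ^ (k + 3) := by
  unfold L
  rw [X_sub_mul_deriv, derivative_C_mul, derivative_sub, derivative_X_pow, derivative_X_pow]
  have h4 : k + 4 - 1 = k + 3 := by omega
  rw [h4]
  simp only [map_add, map_pow, map_ofNat, map_natCast, Nat.cast_add, Nat.cast_ofNat]
  ring

/-- `u v D(u^k v^l) = (l u - k v) u^k v^l` -/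
lemma uv_deriv (k l : ℕ) :
    (1 - X : K[X]) * (1 + X) * derivative ((1 - X) ^ k * (1 + X) ^ l) =
      (C (l : K) * (1 - X) - C (k : K) * (1 + X)) * ((1 - X) ^ k * (1 + X) ^ l) := by
  have hu : ∀ k : ℕ, (1 - X : K[X]) * derivative ((1 - X) ^ k) = - C (k : K) * (1 - X) ^ k := by
    intro k
    rcases k with _ | k
    · simp
    · rw [derivative_pow]
      simp only [Nat.add_sub_cancel, derivative_sub, derivative_one, derivative_X]
      ring
  have hv : ∀ k : ℕ, (1 + X : K[X]) * derivative ((1 + X) ^ k) = C (k : K) * (1 + X) ^ k := by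
    intro k
    rcases k with _ | k
    · simp
    · rw [derivative_pow]
      simp only [Nat.add_sub_cancel, derivative_add, derivative_one, derivative_X]
      ring
  rw [derivative_mul]
  linear_combination (1 + X) * (1 + X) ^ l * hu k + (1 - X) * (1 - X) ^ k * hv l

lemma two_L_uv (k l : ℕ) (hl : (l : K) = -((k : K) + 2)) :
    (1 - X : K[X]) * (1 + X) * (2 * L ((1 - X) ^ k * (1 + X) ^ l)) =
      ((1 - X) ^ k * (1 + X) ^ l) * (C ((k : K) ^ 2) * (1 + X) ^ 4 - C (((k : K) + 2) ^ 2) * (1 - X) ^ 4) := by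
  have h1 := uv_deriv (K := K) k l
  set P : K[X] := (1 - X) ^ k * (1 + X) ^ l with hP
  have h2 := congrArg derivative h1
  have hR : (C (l : K) * (1 - X) - C (k : K) * (1 + X) : K[X]) = 2 * X - 2 * C (k : K) - 2 := by
    rw [hl]; simp only [map_neg, map_add, map_ofNat]; ring
  rw [hR] at h1 h2
  have e1 : derivative ((1 - X : K[X]) * (1 + X) * derivative P) =
      (-2 * X) * derivative P + (1 - X) * (1 + X) * derivative (derivative P) := by
    rw [derivative_mul, derivative_mul]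
    simp only [derivative_sub, derivative_add, derivative_one, derivative_X]
    ring
  have e2 : derivative ((2 * X - 2 * C (k : K) - 2) * P) =
      2 * P + (2 * X - 2 * C (k : K) - 2) * derivative P := by
    rw [derivative_mul]
    simp [derivative_mul]
  rw [e1, e2] at h2
  have e3 : L P = (1 - 5 * X ^ 4) * derivative P + (X - X ^ 5) * derivative (derivative P) - 4 * X ^ 3 * P := by
    unfold L
    have h5 : derivative (X - X ^ 5 : K[X]) = 1 - 5 * X ^ 4 := by
      rw [derivative_sub, derivative_X, derivative_X_pow]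
      simp only [Nat.cast_ofNat, map_ofNat, Nat.add_one_sub_one]
    rw [derivative_mul, h5]
  rw [e3]
  simp only [map_add, map_pow, map_ofNat]
  linear_combination (2 * (1 - 5 * X ^ 4) + 2 * (X + X ^ 3) * (2 * X - 2 * C (k : K) - 2 + 2 * X)) * h1 +
    2 * (X + X ^ 3) * (1 - X) * (1 + X) * h2

/-- coefficients of `L P` -/
lemma coeff_L_small (P : K[X]) (n : ℕ) (hn : n < 3) :
    (L P).coeff n = ((n : K) + 1) ^ 2 * P.coeff (n + 1) := by
  have hq : (X - X ^ 5 : K[X]) * derivative P = derivative P * X - derivative P * X ^ 5 := by ring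
  have hr : (4 * X ^ 3 * P : K[X]) = C 4 * (P * X ^ 3) := by
    rw [map_ofNat]; ring
  unfold L
  rw [coeff_sub, coeff_derivative, hq, coeff_sub, coeff_mul_X, hr, coeff_C_mul, coeff_mul_X_pow',
    coeff_mul_X_pow', if_neg (by omega), if_neg (by omega), coeff_derivative]
  ring

lemma coeff_L_big (P : K[X]) (m : ℕ) :
    (L P).coeff (m + 3) = ((m : K) + 4) ^ 2 * P.coeff (m + 4) - ((m : K) + 2) ^ 2 * P.coeff m := by
  have hq : (X - X ^ 5 : K[X]) * derivative P = derivative P * X - derivative P * X ^ 5 := by ring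
  have hr : (4 * X ^ 3 * P : K[X]) = C 4 * (P * X ^ 3) := by
    rw [map_ofNat]; ring
  unfold L
  rw [coeff_sub, coeff_derivative, hq, coeff_sub, coeff_mul_X, hr, coeff_C_mul, coeff_mul_X_pow]
  rw [coeff_derivative]
  rcases m with _ | m
  · rw [coeff_mul_X_pow', if_neg (by omega)]
    simp
    ring
  · have : m + 1 + 3 + 1 = m + 5 := by ring
    rw [this, coeff_mul_X_pow, coeff_derivative]
    push_cast
    have h2 : m + 5 = m + 1 + 4 := by ring
    rw [h2]
    ring

end gen

section main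
variable {p M : ℕ} [Fact p.Prime]

noncomputable def c (p j : ℕ) [Fact p.Prime] : ZMod p := (Nat.centralBinom j : ZMod p) ^ 2 / 16 ^ j

lemma two_ne (hp : p = 4 * M + 3) : (2 : ZMod p) ≠ 0 := by
  intro h
  have : ((2 : ℕ) : ZMod p) = 0 := by exact_mod_cast h
  rw [ZMod.natCast_eq_zero_iff] at this
  have := Nat.le_of_dvd (by norm_num) this
  omega

lemma nat_ne (p a : ℕ) [Fact p.Prime] (h0 : 0 < a) (h : a < p) : (a : ZMod p) ≠ 0 := by
  intro h'
  rw [ZMod.natCast_eq_zero_iff] at h'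
  have := Nat.le_of_dvd h0 h'
  omega

lemma c_rec (hp : p = 4 * M + 3) (j : ℕ) :
    c p (j + 1) * ((4 * (j : ZMod p) + 4) ^ 2) = c p j * ((4 * (j : ZMod p) + 2) ^ 2) := by
  have h := Nat.succ_mul_centralBinom_succ j
  have h' : ((j : ZMod p) + 1) * (Nat.centralBinom (j + 1) : ZMod p) =
      2 * (2 * (j : ZMod p) + 1) * (Nat.centralBinom j : ZMod p) := by exact_mod_cast congrArg (Nat.cast : ℕ → ZMod p) h
  have h16 : (16 : ZMod p) ≠ 0 := by
    have : (16 : ZMod p) = 2 ^ 4 := by norm_num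
    rw [this]; exact pow_ne_zero _ (two_ne hp)
  have h16j : (16 : ZMod p) ^ j ≠ 0 := pow_ne_zero _ h16
  have e1 : c p (j + 1) * ((4 * (j : ZMod p) + 4) ^ 2) =
      (((j : ZMod p) + 1) * (Nat.centralBinom (j + 1) : ZMod p)) ^ 2 / 16 ^ j := by
    unfold c
    rw [pow_succ (16 : ZMod p) j, eq_div_iff h16j, div_mul_eq_mul_div, div_mul_eq_mul_div,
      div_eq_iff (mul_ne_zero h16j h16)]
    ring
  have e2 : c p j * ((4 * (j : ZMod p) + 2) ^ 2) =
      (2 * (2 * (j : ZMod p) + 1) * (Nat.centralBinom j : ZMod p)) ^ 2 / 16 ^ j := by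
    unfold c
    rw [div_mul_eq_mul_div]
    congr 1
    ring
  rw [e1, e2, h']

/-- first sum -/
lemma L_sum1 (hp : p = 4 * M + 3) :
    L (∑ j ∈ range (M + 1), C (c p j) * (X : (ZMod p)[X]) ^ (4 * j)) = - C (c p M) * X ^ p := by
  rw [L_sum]
  have hT : ∀ j ∈ range (M + 1), L (C (c p j) * (X : (ZMod p)[X]) ^ (4 * j)) =
      C (c p j * (4 * (j : ZMod p)) ^ 2) * X ^ (4 * j - 1) -
        C (c p (j + 1) * (4 * ((j + 1 : ℕ) : ZMod p)) ^ 2) * X ^ (4 * (j + 1) - 1) := by
    intro j _
    have h := c_rec (p := p) hp j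
    have h2 : c p (j + 1) * (4 * ((j + 1 : ℕ) : ZMod p)) ^ 2 = c p j * ((4 * (j : ZMod p) + 2) ^ 2) := by
      rw [← h]; push_cast; ring
    have h3 : 4 * (j + 1) - 1 = 4 * j + 3 := by omega
    rw [L_C_mul, L_X_pow, h2, h3]
    push_cast
    rw [C_mul, C_mul]
    ring
  rw [sum_congr rfl hT, sum_range_sub']
  have h2 : c p (M + 1) * (4 * ((M + 1 : ℕ) : ZMod p)) ^ 2 = c p M := by
    have h := c_rec (p := p) hp M
    have h0 : ((4 * M + 3 : ℕ) : ZMod p) = 0 := by rw [← hp]; exact CharP.cast_eq_zero _ _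
    push_cast at h0
    have h1 : c p (M + 1) * (4 * ((M + 1 : ℕ) : ZMod p)) ^ 2 = c p M * ((4 * (M : ZMod p) + 2) ^ 2) := by
      rw [← h]; push_cast; ring
    rw [h1]
    linear_combination c p M * (4 * (M : ZMod p) + 1) * h0
  have h3 : 4 * (M + 1) - 1 = p := by omega
  rw [h2, h3]
  simp

/-- second sum -/
lemma L_sum2 (hp : p = 4 * M + 3) :
    L (∑ j ∈ range (M + 1), C (c p j) * (X : (ZMod p)[X]) ^ (p - 2 - 4 * j)) = C (c p M) := by
  rw [L_sum]
  have hp0 : (p : ZMod p) = 0 := CharP.cast_eq_zero _ _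
  have hT : ∀ j ∈ range (M + 1), L (C (c p j) * (X : (ZMod p)[X]) ^ (p - 2 - 4 * j)) =
      C (c p (j + 1) * (4 * ((j + 1 : ℕ) : ZMod p)) ^ 2) * X ^ (p + 1 - 4 * (j + 1)) -
        C (c p j * (4 * (j : ZMod p)) ^ 2) * X ^ (p + 1 - 4 * j) := by
    intro j hj
    rw [mem_range] at hj
    have h := c_rec (p := p) hp j
    have h2 : c p (j + 1) * (4 * ((j + 1 : ℕ) : ZMod p)) ^ 2 = c p j * ((4 * (j : ZMod p) + 2) ^ 2) := by
      rw [← h]; push_cast; ring
    have hc : ((p - 2 - 4 * j : ℕ) : ZMod p) = -(4 * (j : ZMod p) + 2) := by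
      have : ((p - 2 - 4 * j + (4 * j + 2) : ℕ) : ZMod p) = 0 := by
        rw [show p - 2 - 4 * j + (4 * j + 2) = p by omega]; exact hp0
      push_cast at this
      linear_combination this
    have h3 : p - 2 - 4 * j - 1 = p + 1 - 4 * (j + 1) := by omega
    have h4 : p - 2 - 4 * j + 3 = p + 1 - 4 * j := by omega
    rw [L_C_mul, L_X_pow, h2, hc, h3, h4]
    rw [C_mul, C_mul]
    have e1 : (-(4 * (j : ZMod p) + 2)) ^ 2 = (4 * (j : ZMod p) + 2) ^ 2 := by ring
    have e2 : (-(4 * (j : ZMod p) + 2) + 2) ^ 2 = (4 * (j : ZMod p)) ^ 2 := by ring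
    rw [e1, e2]
    ring
  rw [sum_congr rfl hT, sum_range_sub (fun j => C (c p j * (4 * (j : ZMod p)) ^ 2) * (X : (ZMod p)[X]) ^ (p + 1 - 4 * j))]
  have h2 : c p (M + 1) * (4 * ((M + 1 : ℕ) : ZMod p)) ^ 2 = c p M := by
    have h := c_rec (p := p) hp M
    have h0 : ((4 * M + 3 : ℕ) : ZMod p) = 0 := by rw [← hp]; exact CharP.cast_eq_zero _ _
    push_cast at h0
    have h1 : c p (M + 1) * (4 * ((M + 1 : ℕ) : ZMod p)) ^ 2 = c p M * ((4 * (M : ZMod p) + 2) ^ 2) := by
      rw [← h]; push_cast; ring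
    rw [h1]
    linear_combination c p M * (4 * (M : ZMod p) + 1) * h0
  have h3 : p + 1 - 4 * (M + 1) = 0 := by omega
  simp only [h2, h3]
  simp

/-- third sum -/
lemma L_sum3 (hp : p = 4 * M + 3) :
    L (∑ j ∈ range (M + 1), C (c p j) * (-2 * ((1 - X : (ZMod p)[X]) ^ (4 * j) * (1 + X) ^ (p - 2 - 4 * j)))) =
      C (c p M) * (1 - X ^ p) := by
  have hp0 : (p : ZMod p) = 0 := CharP.cast_eq_zero _ _
  have hu0 : (1 - X : (ZMod p)[X]) ≠ 0 := by
    intro h
    have := congrArg (fun P => P.coeff 0) h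
    simp at this
  have hv0 : (1 + X : (ZMod p)[X]) ≠ 0 := by
    intro h
    have := congrArg (fun P => P.coeff 0) h
    simp at this
  have hT : ∀ j ∈ range (M + 1), L (C (c p j) * (-2 * ((1 - X : (ZMod p)[X]) ^ (4 * j) * (1 + X) ^ (p - 2 - 4 * j)))) =
      C (c p (j + 1) * (4 * ((j + 1 : ℕ) : ZMod p)) ^ 2) * ((1 - X) ^ (4 * (j + 1) - 1) * (1 + X) ^ (p + 1 - 4 * (j + 1))) -
        C (c p j * (4 * (j : ZMod p)) ^ 2) * ((1 - X) ^ (4 * j - 1) * (1 + X) ^ (p + 1 - 4 * j)) := by
    intro j hj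
    rw [mem_range] at hj
    have h := c_rec (p := p) hp j
    have h2 : c p (j + 1) * (4 * ((j + 1 : ℕ) : ZMod p)) ^ 2 = c p j * ((4 * (j : ZMod p) + 2) ^ 2) := by
      rw [← h]; push_cast; ring
    have hc : ((p - 2 - 4 * j : ℕ) : ZMod p) = -(((4 * j : ℕ) : ZMod p) + 2) := by
      have : ((p - 2 - 4 * j + (4 * j + 2) : ℕ) : ZMod p) = 0 := by
        rw [show p - 2 - 4 * j + (4 * j + 2) = p by omega]; exact hp0
      push_cast at this ⊢
      linear_combination this
    have hL := two_L_uv (K := ZMod p) (4 * j) (p - 2 - 4 * j) hc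
    have eC : (C (c p j) * (-2 * ((1 - X : (ZMod p)[X]) ^ (4 * j) * (1 + X) ^ (p - 2 - 4 * j)))) =
        C (-2 * c p j) * ((1 - X : (ZMod p)[X]) ^ (4 * j) * (1 + X) ^ (p - 2 - 4 * j)) := by
      simp only [C_mul, map_neg, map_ofNat]; ring
    rw [eC, L_C_mul, h2]
    apply mul_left_cancel₀ (mul_ne_zero hu0 hv0)
    have a1 : (1 - X : (ZMod p)[X]) * (C (c p j * (4 * (j : ZMod p)) ^ 2) * (1 - X) ^ (4 * j - 1)) =
        C (c p j * (4 * (j : ZMod p)) ^ 2) * (1 - X) ^ (4 * j) := by
      rcases j with _ | j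
      · simp
      · have : 4 * (j + 1) = (4 * (j + 1) - 1) + 1 := by omega
        rw [this, pow_succ]
        simp only [Nat.add_sub_cancel]
        ring
    obtain ⟨l, hl⟩ : ∃ l, p - 2 - 4 * j = l + 1 := ⟨p - 2 - 4 * j - 1, by omega⟩
    have b1 : p + 1 - 4 * (j + 1) = l := by omega
    have b2 : p + 1 - 4 * j = l + 4 := by omega
    have b3 : 4 * (j + 1) - 1 = 4 * j + 3 := by omega
    rw [hl] at hL ⊢
    rw [b1, b2, b3]
    push_cast at hL
    simp only [C_mul, C_pow, C_add, map_ofNat, map_neg] at hL a1 ⊢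
    linear_combination (-C (c p j)) * hL + (1 + X) * (1 + X) ^ (l + 4) * a1
  rw [L_sum, sum_congr rfl hT, sum_range_sub (fun j => C (c p j * (4 * (j : ZMod p)) ^ 2) *
    ((1 - X : (ZMod p)[X]) ^ (4 * j - 1) * (1 + X) ^ (p + 1 - 4 * j)))]
  have h2 : c p (M + 1) * (4 * ((M + 1 : ℕ) : ZMod p)) ^ 2 = c p M := by
    have h := c_rec (p := p) hp M
    have h0 : ((4 * M + 3 : ℕ) : ZMod p) = 0 := by rw [← hp]; exact CharP.cast_eq_zero _ _
    push_cast at h0
    have h1 : c p (M + 1) * (4 * ((M + 1 : ℕ) : ZMod p)) ^ 2 = c p M * ((4 * (M : ZMod p) + 2) ^ 2) := by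
      rw [← h]; push_cast; ring
    rw [h1]
    linear_combination c p M * (4 * (M : ZMod p) + 1) * h0
  have h3 : p + 1 - 4 * (M + 1) = 0 := by omega
  have h4 : 4 * (M + 1) - 1 = p := by omega
  simp only [h2, h3, h4]
  rw [sub_pow_char]
  simp

/-- the kernel of `L` in degrees `≤ p - 2` is zero -/
lemma ker_L (hp : p = 4 * M + 3) (E : (ZMod p)[X]) (hL : L E = 0) (hdeg : ∀ m, p - 1 ≤ m → E.coeff m = 0) :
    E = 0 := by
  have hs : ∀ n < 3, E.coeff (n + 1) = 0 := by
    intro n hn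
    have h := coeff_L_small E n hn
    rw [hL, coeff_zero] at h
    by_cases hb : p - 1 ≤ n + 1
    · exact hdeg _ hb
    · have hne : ((n : ZMod p) + 1) ≠ 0 := by
        have := nat_ne p (n + 1) (by omega) (by omega)
        exact_mod_cast this
      have := (mul_eq_zero.1 h.symm).resolve_left (pow_ne_zero _ hne)
      exact this
  have hb : ∀ m : ℕ, ((m : ZMod p) + 4) ^ 2 * E.coeff (m + 4) = ((m : ZMod p) + 2) ^ 2 * E.coeff m := by
    intro m
    have h := coeff_L_big E m
    rw [hL, coeff_zero] at h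
    linear_combination -h
  have hA : ∀ i r, r < 3 → E.coeff (4 * i + (r + 1)) = 0 := by
    intro i
    induction i with
    | zero => intro r hr; simpa using hs r hr
    | succ i ih =>
      intro r hr
      by_cases hb' : p - 1 ≤ 4 * (i + 1) + (r + 1)
      · exact hdeg _ hb'
      · have h := hb (4 * i + (r + 1))
        rw [ih r hr, mul_zero] at h
        have hne : (((4 * i + (r + 1) : ℕ) : ZMod p) + 4) ≠ 0 := by
          have := nat_ne p (4 * i + (r + 1) + 4) (by omega) (by omega)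
          exact_mod_cast this
        have h2 := (mul_eq_zero.1 h).resolve_left (pow_ne_zero _ hne)
        have h3 : 4 * (i + 1) + (r + 1) = 4 * i + (r + 1) + 4 := by ring
        rw [h3]; exact h2
  have hB : ∀ i, i ≤ M → E.coeff (4 * (M - i)) = 0 := by
    intro i
    induction i with
    | zero =>
      intro _
      have h := hb (4 * M)
      rw [hdeg (4 * M + 4) (by omega), mul_zero] at h
      have hne : (((4 * M : ℕ) : ZMod p) + 2) ≠ 0 := by
        have := nat_ne p (4 * M + 2) (by omega) (by omega)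
        exact_mod_cast this
      have h2 := (mul_eq_zero.1 h.symm).resolve_left (pow_ne_zero _ hne)
      simpa using h2
    | succ i ih =>
      intro hi
      have h := hb (4 * (M - (i + 1)))
      have h3 : 4 * (M - (i + 1)) + 4 = 4 * (M - i) := by omega
      rw [h3, ih (by omega), mul_zero] at h
      have hne : (((4 * (M - (i + 1)) : ℕ) : ZMod p) + 2) ≠ 0 := by
        have := nat_ne p (4 * (M - (i + 1)) + 2) (by omega) (by omega)
        exact_mod_cast this
      exact (mul_eq_zero.1 h.symm).resolve_left (pow_ne_zero _ hne)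
  ext m
  rw [coeff_zero]
  rcases Nat.lt_or_ge m (p - 1) with hm | hm
  · have hdm := Nat.div_add_mod m 4
    have hlt := Nat.mod_lt m (show 0 < 4 by norm_num)
    rcases Nat.eq_zero_or_pos (m % 4) with h0 | h0
    · have h1 : m = 4 * (M - (M - m / 4)) := by omega
      rw [h1]
      exact hB (M - m / 4) (by omega)
    · have h1 : m = 4 * (m / 4) + ((m % 4 - 1) + 1) := by omega
      rw [h1]
      exact hA _ _ (by omega)
  · exact hdeg m hm

lemma coeff_big_of_natDegree (P : (ZMod p)[X]) (h : P.natDegree ≤ p - 2) (hp2 : 2 ≤ p) :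
    ∀ m, p - 1 ≤ m → P.coeff m = 0 := by
  intro m hm
  exact coeff_eq_zero_of_natDegree_lt (by omega)

end main

theorem nine_a : Pool.Agent.H547.CW.S_9a := by
  intro p M _ hp
  have hp2 : 2 ≤ p := by omega
  have key : (∑ j ∈ range (M + 1), C (c p j) * (-2 * ((1 - X : (ZMod p)[X]) ^ (4 * j) * (1 + X) ^ (p - 2 - 4 * j)))) =
      ∑ j ∈ range (M + 1), C (c p j) * ((X : (ZMod p)[X]) ^ (4 * j) + X ^ (p - 2 - 4 * j)) := by
    rw [← sub_eq_zero]
    apply ker_L hp
    · rw [sub_eq_add_neg, L_add]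
      have hneg : ∀ Q : (ZMod p)[X], L (-Q) = - L Q := by
        intro Q
        have := L_C_mul (-1 : ZMod p) Q
        simpa using this
      rw [hneg, L_sum3 hp]
      have : (∑ j ∈ range (M + 1), C (c p j) * ((X : (ZMod p)[X]) ^ (4 * j) + X ^ (p - 2 - 4 * j))) =
          (∑ j ∈ range (M + 1), C (c p j) * (X : (ZMod p)[X]) ^ (4 * j)) +
            ∑ j ∈ range (M + 1), C (c p j) * (X : (ZMod p)[X]) ^ (p - 2 - 4 * j) := by
        rw [← sum_add_distrib]
        exact sum_congr rfl (fun j _ => by ring)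
      rw [this, L_add, L_sum1 hp, L_sum2 hp]
      ring
    · intro m hm
      rw [coeff_sub, finsetSum_coeff, finsetSum_coeff]
      have h1 : ∑ j ∈ range (M + 1), (C (c p j) * (-2 * ((1 - X : (ZMod p)[X]) ^ (4 * j) * (1 + X) ^ (p - 2 - 4 * j)))).coeff m = 0 := by
        apply sum_eq_zero
        intro j hj
        rw [mem_range] at hj
        rw [coeff_C_mul]
        have hd : (-2 * ((1 - X : (ZMod p)[X]) ^ (4 * j) * (1 + X) ^ (p - 2 - 4 * j))).natDegree < m := by
          have e1 : (1 - X : (ZMod p)[X]).natDegree ≤ 1 := by compute_degree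
          have e2 : (1 + X : (ZMod p)[X]).natDegree ≤ 1 := by compute_degree
          have e3 : (-2 : (ZMod p)[X]).natDegree ≤ 0 := by compute_degree
          have f1 : ((1 - X : (ZMod p)[X]) ^ (4 * j)).natDegree ≤ 4 * j := by
            refine (natDegree_pow_le_of_le (4 * j) e1).trans (by omega)
          have f2 : ((1 + X : (ZMod p)[X]) ^ (p - 2 - 4 * j)).natDegree ≤ p - 2 - 4 * j := by
            refine (natDegree_pow_le_of_le (p - 2 - 4 * j) e2).trans (by omega)
          have f3 := natDegree_mul_le_of_le e3 (natDegree_mul_le_of_le f1 f2)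
          omega
        rw [coeff_eq_zero_of_natDegree_lt hd, mul_zero]
      have h2 : ∑ j ∈ range (M + 1), (C (c p j) * ((X : (ZMod p)[X]) ^ (4 * j) + X ^ (p - 2 - 4 * j))).coeff m = 0 := by
        apply sum_eq_zero
        intro j hj
        rw [mem_range] at hj
        rw [coeff_C_mul, coeff_add, coeff_X_pow, coeff_X_pow, if_neg (by omega), if_neg (by omega)]
        ring
      rw [h1, h2, sub_zero]
  unfold c at key
  exact key

end Pool.Agent.H103.CW64.A9
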